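import Pool.Agent.H829R2.KB.T_HS
import Pool.Agent.H829R2.KB.T_HSA
import Pool.Agent.H829R2.KB.T_VER
import Pool.Agent.H829R2.KB.T_TRI
import Pool.Agent.H829R2.KB.T_POL
import Pool.Agent.H829R2.KB.T_PLI
import Pool.Agent.H829R2.KB.T_SHA
import Pool.Agent.H829R2.KB.T_SHB
import Pool.Agent.H829R2.KB.T_HAA
import Pool.Agent.H829R2.KB.T_ROT
import Pool.Agent.H829R2.KB.T_STD
import Pool.Agent.H829R2.KB.T_VL
import Pool.Agent.H829R2.KB.T_AG
import Pool.Agent.H829R2.KB.T_QF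
import Pool.Agent.H829R2.KB.T_TAY
import Pool.Agent.H829R2.KB.T_MOM
import Pool.Agent.H829R2.KB.T_AVG
import Pool.Agent.H829R2.KB.T_SYM
import Pool.Agent.H829R2.KB.T_LIM
import Pool.Agent.H829R2.KB.T_LAB
import Pool.Agent.H829R2.KB.T_MON
import Pool.Agent.H829R2.KB.T_ABS
import Pool.Agent.H829R2.KB.T_GAP
import Pool.Agent.H829R2.KB.T_DEN
import Pool.Agent.H829R2.KB.T_PRO
import Pool.Agent.H829R2.KB.T_KEY
import Pool.Agent.H829R2.KB.T_TRA
import Pool.Agent.H829R2.KB.T_HOL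
import Pool.Agent.H829R2.KB.T_MO4
import Pool.Agent.H829R2.KB.T_GDG
import Pool.Agent.H829R2.KB.T_ELL
import Pool.Agent.H829R2.KB.T_FAI

/-!
# Brunn-Minkowski for unitary averages of projections onto real planes of `C^n`

The definitions are those of the file `AlmostComplex` of this folder. A real plane `E` of `C^n`,
`n ≥ 2`, with orthonormal basis `a, b`, has the Brunn-Minkowski property if and only if
`2 n (Im ⟪a, b⟫)² ≤ n + 1`.
-/

set_option autoImplicit false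

open Pool.Agent.Results.MP_6cdc09_gt.AlmostComplex

namespace Pool.Agent.Results.MP_6cdc09_gt.RealPlanes

open H829KB in
theorem main : S_MAIN := by
  have hHS : S_HS := @t_HS
  have hHSA : S_HSA := @t_HSA
  have hVER := t_VER hHS
  have hTRI := t_TRI
  have hPOL := t_POL hHS hVER hTRI
  have hPLI := t_PLI hHS hPOL
  have hSHA := t_SHA
  have hSHB := t_SHB
  have hHAA := t_HAA
  have hROT := t_ROT
  have hSTD := t_STD
  have hVL := t_VL hHS hPLI hSHA hSHB hHAA hSTD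
  have hAG := t_AG hHAA hROT
  have hQF := t_QF hHS hVL hAG hSTD
  have hTAY := t_TAY
  have hMOM := t_MOM hHAA
  have hAVG := t_AVG hHAA hMOM
  have hSYM := t_SYM hHAA hROT
  have hLIM := t_LIM hHAA hSYM hTAY hAVG
  have hLAB := t_LAB
  have hMON := t_MON
  have hABS := t_ABS
  have hGAP := t_GAP hHAA hLIM hLAB hMON hABS
  have hDEN := t_DEN
  have hPRO := t_PRO hHAA
  have hKEY := t_KEY hHAA hLIM hGAP hDEN hPRO hMON
  have hTRA := t_TRA
  have hHOL := t_HOL hHS hHSA hHAA hQF hKEY hTRA hSTD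
  have hMO4 := t_MO4 hHAA
  have hGDG := t_GDG hHAA hMO4
  have hELL := t_ELL
  have hFAI := t_FAI hHS hHSA hHAA hQF hGDG hMO4 hELL hSTD
  exact t_MAIN hHOL hFAI

/-- A real plane `E` of `C^n`, `n ≥ 2`, with orthonormal basis `a, b` has the Brunn-Minkowski
property if and only if `2 n (Im ⟪a, b⟫)² ≤ n + 1`. -/
theorem result (n : ℕ) (hn : 2 ≤ n) (E : Submodule ℝ (Cn n)) (hE : Module.finrank ℝ E = 2)
    (a b : Cn n) (ha : a ∈ E) (hb : b ∈ E) (na : ‖a‖ = 1) (nb : ‖b‖ = 1)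
    (hab : inner ℝ a b = 0) :
    BM E ↔ 2 * n * (inner ℂ a b : ℂ).im ^ 2 ≤ (n : ℝ) + 1 :=
  main n E a b hn hE ha hb na nb hab

end Pool.Agent.Results.MP_6cdc09_gt.RealPlanes
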